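import Pool.Agent.X128.ZR.Exp

/-!
# Zero-range processes that explode from a configuration of finite asymptotic density

The definitions `move`, `gen` and `IsZeroRange` are in `Pool.Agent.X128.ZR.Gen`.
-/

set_option autoImplicit false

namespace Pool.Agent.Results.MP_773c46_pr.PilesExplode

open MeasureTheory Filter Topology Set Pool.Agent.X128.ZR

universe u

/-- `η` has finite asymptotic density. -/
def FiniteDensity (η : ℤ → ℕ) : Prop :=
  ∃ K : ℝ, ∀ᶠ n : ℕ in atTop,
    (∑ x ∈ Finset.Icc (-(n : ℤ)) n, (η x : ℝ)) / (2 * n + 1) ≤ K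

/-- The configuration that agrees with `η` on `{|x| ≤ n}` and vanishes elsewhere. -/
noncomputable def trunc (η : ℤ → ℕ) (n : ℕ) : ℤ →₀ ℕ :=
  Finsupp.onFinset (Finset.Icc (-(n : ℤ)) n)
    (fun x => if x ∈ Finset.Icc (-(n : ℤ)) n then η x else 0) (by
      intro x hx
      by_contra h
      rw [if_neg h] at hx
      exact hx rfl)

lemma piles {N z : ℕ → ℕ} (hz : StrictMono z)
    (hzN : ∀ k, ∑ j ∈ Finset.range (k + 1), N j ≤ z k) (n : ℕ) :
    ∑ x ∈ Finset.Icc (-(n : ℤ)) n, Function.extend (fun k => -(z k : ℤ)) N 0 x ≤ n := by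
  classical
  have hinj : Function.Injective (fun k => -(z k : ℤ)) := by
    intro a b h
    have : (z a : ℤ) = z b := by simpa using h
    exact hz.injective (by exact_mod_cast this)
  set K := (Finset.range (n + 1)).filter (fun k => z k ≤ n) with hK
  have h1 : ∑ x ∈ Finset.Icc (-(n : ℤ)) n, Function.extend (fun k => -(z k : ℤ)) N 0 x ≤
      ∑ k ∈ K, N k := by
    have h2 : ∑ k ∈ K, N k = ∑ x ∈ K.image (fun k => -(z k : ℤ)),
        Function.extend (fun k => -(z k : ℤ)) N 0 x := by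
      rw [Finset.sum_image (fun a _ b _ h => hinj h)]
      exact Finset.sum_congr rfl fun k _ => (hinj.extend_apply N 0 k).symm
    rw [h2]
    refine Finset.sum_le_sum_of_ne_zero fun x hx hx0 => ?_
    by_cases hex : ∃ k, -(z k : ℤ) = x
    · obtain ⟨k, rfl⟩ := hex
      refine Finset.mem_image_of_mem _ ?_
      rw [Finset.mem_Icc] at hx
      have h3 : z k ≤ n := by omega
      have h4 : k ≤ z k := hz.le_apply
      exact Finset.mem_filter.mpr ⟨Finset.mem_range.mpr (by omega), h3⟩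
    · exact absurd (Function.extend_apply' _ _ _ hex) hx0
  refine h1.trans ?_
  rcases K.eq_empty_or_nonempty with h | h
  · rw [h]; simp
  · have h5 : K ⊆ Finset.range (K.max' h + 1) := by
      intro k hk
      exact Finset.mem_range.mpr (Nat.lt_succ_of_le (Finset.le_max' _ _ hk))
    calc ∑ k ∈ K, N k ≤ ∑ k ∈ Finset.range (K.max' h + 1), N k :=
          Finset.sum_le_sum_of_subset h5
      _ ≤ z (K.max' h) := hzN _
      _ ≤ n := (Finset.mem_filter.mp (Finset.max'_mem K h)).2

/-- **Explosion from finite density.**  Let `g` be any admissible rate function with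
`liminf g(n) / n < ∞` (for example `g(n) = √n` or `g(n) = n`).  There are a jump kernel `p` on `ℤ`
and a configuration `η` of finite asymptotic density and a time `t₀ > 0` such that, however the
zero-range processes `η^n` started from the truncations of `η` are realised on one probability
space, for every time `0 < t ≤ t₀` the value `η_t(0) = sup_n η^n_t(0)` is infinite with probability
at least `1 / 2`. -/
theorem result (g : ℕ → ℝ) (h0 : g 0 = 0) (hg : ∀ n, g n ≤ g (n + 1))
    (hinf : Tendsto g atTop atTop) (C : ℝ) (hC : ∃ᶠ n : ℕ in atTop, g n ≤ C * n) :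
    ∃ p : ℤ → ℝ, (∀ z, 0 ≤ p z) ∧ HasSum p 1 ∧
      ∃ η : ℤ → ℕ, FiniteDensity η ∧ ∃ t₀ : ℝ, 0 < t₀ ∧
        ∀ (Ω : Type u) [MeasurableSpace Ω] (P : Measure Ω) [IsProbabilityMeasure P]
          (X : ℕ → ℝ → Ω → (ℤ →₀ ℕ)), (∀ n, IsZeroRange P g p (trunc η n) (X n)) →
          ∀ t, 0 < t → t ≤ t₀ →
            1 / 2 ≤ P {ω | ⨆ n, ((X n t ω 0 : ℕ) : ℕ∞) = ⊤} := by
  have hmono : Monotone g := monotone_nat_of_le_succ hg
  have hg0 : ∀ n, 0 ≤ g n := fun n => h0 ▸ hmono (Nat.zero_le n)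
  -- choice of the piles
  have hex : ∀ k : ℕ, ∃ n : ℕ, 0 < n ∧ g n ≤ C * n ∧ (4 : ℝ) ^ k ≤ g (n / 2) := by
    intro k
    have h2 : Tendsto (fun n : ℕ => n / 2) atTop atTop := Nat.tendsto_div_const_atTop (by norm_num)
    have h3 := (hinf.comp h2).eventually_ge_atTop ((4 : ℝ) ^ k)
    obtain ⟨n, hn, hn2, hn3⟩ := (hC.and_eventually (h3.and (eventually_gt_atTop 0))).exists
    exact ⟨n, hn3, hn, hn2⟩
  choose N hN1 hN2 hN3 using hex
  set z : ℕ → ℕ := fun k => ∑ j ∈ Finset.range (k + 1), (N j + 1) with hzdef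
  have hz : StrictMono z := strictMono_nat_of_lt_succ fun k => by
    simp only [hzdef]
    rw [Finset.sum_range_succ _ (k + 1)]
    omega
  have hzN : ∀ k, ∑ j ∈ Finset.range (k + 1), N j ≤ z k := fun k =>
    Finset.sum_le_sum fun j _ => Nat.le_succ _
  have hzpos : ∀ k, 0 < z k := fun k => by
    simp only [hzdef]
    rw [Finset.sum_range_succ]
    omega
  have hinj : Function.Injective (fun k => (z k : ℤ)) := by
    intro a b h
    have h' : (z a : ℤ) = z b := h
    exact hz.injective (by exact_mod_cast h')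
  have hinj' : Function.Injective (fun k => -(z k : ℤ)) := by
    intro a b h
    have : (z a : ℤ) = z b := by simpa using h
    exact hz.injective (by exact_mod_cast this)
  set p : ℤ → ℝ := Function.extend (fun k => (z k : ℤ)) (fun k => 1 / 2 * (1 / 2) ^ k) 0 with hp
  have hpz : ∀ k, p (z k) = 1 / 2 * (1 / 2) ^ k := fun k => hinj.extend_apply _ _ k
  have hp0 : ∀ w, 0 ≤ p w := by
    intro w
    by_cases hw : ∃ k, (z k : ℤ) = w
    · obtain ⟨k, rfl⟩ := hw
      rw [hpz]; positivity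
    · rw [hp, Function.extend_apply' _ _ _ hw]
      exact le_rfl
  have hp1 : HasSum p 1 := by
    rw [hp, hasSum_extend_zero hinj]
    have := hasSum_geometric_two.mul_left (1 / 2 : ℝ)
    norm_num at this ⊢
    exact this
  set η : ℤ → ℕ := Function.extend (fun k => -(z k : ℤ)) N 0 with hη
  have hηz : ∀ k, η (-(z k : ℤ)) = N k := fun k => hinj'.extend_apply _ _ k
  refine ⟨p, hp0, hp1, η, ⟨1, Eventually.of_forall fun n => ?_⟩, ?_⟩
  · have h1 : (∑ x ∈ Finset.Icc (-(n : ℤ)) n, (η x : ℝ)) ≤ n := by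
      exact_mod_cast piles hz hzN n
    rw [div_le_one (by positivity)]
    have : (0 : ℝ) ≤ n := by positivity
    linarith
  have hC0 : 0 ≤ C := by
    have h1 : 0 ≤ C * N 0 := (hg0 _).trans (hN2 0)
    have h2 : (0 : ℝ) < N 0 := by exact_mod_cast hN1 0
    exact nonneg_of_mul_nonneg_left h1 h2
  refine ⟨1 / (16 * (C + 1)), by positivity, ?_⟩
  intro Ω _ P _ X hX t ht ht0
  have ht1 : C * t ≤ 1 / 16 := by
    calc C * t ≤ (C + 1) * (1 / (16 * (C + 1))) := by gcongr; linarith
      _ = 1 / 16 := by field_simp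
  set a : ℕ → ℝ := fun k => g (N k / 2) * p (0 - (-(z k : ℤ))) with ha
  have hak : ∀ k, (2 : ℝ) ^ k / 2 ≤ a k := by
    intro k
    have e1 : (0 : ℤ) - (-(z k : ℤ)) = z k := by ring
    simp only [ha, e1, hpz]
    calc (2 : ℝ) ^ k / 2 = 4 ^ k * (1 / 2 * (1 / 2) ^ k) := by
          have : (4 : ℝ) = 2 * 2 := by norm_num
          have h2 : (2 : ℝ) ^ k * (1 / 2) ^ k = 1 := by rw [← mul_pow]; norm_num
          rw [this, mul_pow]
          linear_combination (-(2 : ℝ) ^ k / 2) * h2
      _ ≤ g (N k / 2) * (1 / 2 * (1 / 2) ^ k) := by gcongr; exact hN3 k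
  have hapos : ∀ k, 0 < a k := fun k => lt_of_lt_of_le (by positivity) (hak k)
  have hatop : Tendsto a atTop atTop := by
    refine tendsto_atTop_mono hak ?_
    exact (tendsto_pow_atTop_atTop_of_one_lt (by norm_num : (1 : ℝ) < 2)).atTop_div_const
      (by norm_num)
  -- the number of particles at `0` is at least `m` with probability at least `1/2`
  have hE : ∀ m : ℕ, 0 < m → 1 / 2 ≤ P {ω | ∃ n, m ≤ X n t ω 0} := by
    intro m hm
    have hmr : (0 : ℝ) < m := by exact_mod_cast hm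
    set M := 2 * m with hM
    have hMr : (M : ℝ) = 2 * m := by rw [hM]; push_cast; ring
    have hMp : (0 : ℝ) < M := by rw [hMr]; positivity
    have l1 : Tendsto (fun k => (M : ℝ) * Real.exp (-(a k / M * t)) + M * g M / a k) atTop
        (𝓝 (M * 0 + 0)) := by
      refine Tendsto.add (Tendsto.const_mul _ ?_) (hatop.const_div_atTop _)
      refine Real.tendsto_exp_atBot.comp (tendsto_neg_atTop_atBot.comp ?_)
      exact (hatop.atTop_div_const hMp).atTop_mul_const ht
    rw [mul_zero, add_zero] at l1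
    obtain ⟨k, hk⟩ := (l1.eventually_lt_const (show (0 : ℝ) < m / 4 by positivity)).exists
    have hζ : (trunc η (z k)) (-(z k : ℤ)) = N k := by
      have : -(z k : ℤ) ∈ Finset.Icc (-(z k : ℤ)) (z k) := by
        rw [Finset.mem_Icc]; constructor <;> omega
      simp only [trunc, Finsupp.onFinset_apply]
      rw [if_pos this, hηz]
    have h1 := expF (hX (z k)) h0 hg0 hmono hp0 hp1 (-(z k : ℤ))
      (by have := hzpos k; omega) (N k) M (hN1 k) (by omega) hζ.ge ht.le (hN2 k) (hapos k)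
    have h2 : 2 * (M : ℝ) * C * t ≤ m / 4 := by
      rw [hMr]
      nlinarith
    have h3 : ∫ ω, ((M - (X (z k) t ω) 0 : ℕ) : ℝ) ∂P ≤ m / 2 := by
      have e1 : a k = g (N k / 2) * p (0 - (-(z k : ℤ))) := rfl
      rw [← e1] at h1
      linarith
    have hmeas : MeasurableSet {ω | m ≤ X (z k) t ω 0} :=
      (hX (z k)).meas t ht.le {ξ | m ≤ ξ 0}
    have h4 : (m : ℝ) * P.real {ω | (m : ℝ) ≤ ((M - (X (z k) t ω) 0 : ℕ) : ℝ)} ≤ m / 2 := by
      refine le_trans (mul_meas_ge_le_integral_of_nonneg (Eventually.of_forall fun ω => ?_) ?_ _) h3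
      · positivity
      · refine (hX (z k)).integrable ht.le (f := fun ξ => ((M - ξ 0 : ℕ) : ℝ)) (K := M)
          (Eventually.of_forall fun ω => ?_)
        rw [abs_of_nonneg (by positivity)]
        exact_mod_cast Nat.sub_le _ _
    have h5 : P.real {ω | m ≤ X (z k) t ω 0}ᶜ ≤ 1 / 2 := by
      have h6 : P.real {ω | m ≤ X (z k) t ω 0}ᶜ ≤
          P.real {ω | (m : ℝ) ≤ ((M - (X (z k) t ω) 0 : ℕ) : ℝ)} := by
        refine measureReal_mono fun ω hω => ?_
        simp only [mem_compl_iff, Set.mem_ofPred_eq, not_le] at hω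
        simp only [Set.mem_ofPred_eq, Nat.cast_le]
        omega
      have h7 : (m : ℝ) * P.real {ω | m ≤ X (z k) t ω 0}ᶜ ≤ m * (1 / 2) := by
        calc (m : ℝ) * P.real {ω | m ≤ X (z k) t ω 0}ᶜ ≤
            m * P.real {ω | (m : ℝ) ≤ ((M - (X (z k) t ω) 0 : ℕ) : ℝ)} := by gcongr
          _ ≤ m / 2 := h4
          _ = m * (1 / 2) := by ring
      exact le_of_mul_le_mul_left h7 hmr
    have h8 : (1 / 2 : ℝ) ≤ P.real {ω | m ≤ X (z k) t ω 0} := by
      have := probReal_compl_eq_one_sub (μ := P) hmeas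
      linarith
    have h9 : (1 / 2 : ENNReal) ≤ P {ω | m ≤ X (z k) t ω 0} := by
      have e1 : P {ω | m ≤ X (z k) t ω 0} =
          ENNReal.ofReal (P.real {ω | m ≤ X (z k) t ω 0}) := (ofReal_measureReal).symm
      rw [e1]
      have e2 : (1 / 2 : ENNReal) = ENNReal.ofReal (1 / 2) := by
        rw [ENNReal.ofReal_div_of_pos (by norm_num)]
        simp
      rw [e2]
      exact ENNReal.ofReal_le_ofReal h8
    exact h9.trans (measure_mono fun ω hω => ⟨z k, hω⟩)
  -- intersection over `m`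
  set E : ℕ → Set Ω := fun m => {ω | ∃ n, m + 1 ≤ X n t ω 0} with hEdef
  have hEm : ∀ m, MeasurableSet (E m) := by
    intro m
    have : E m = ⋃ n, {ω | m + 1 ≤ X n t ω 0} := by
      ext ω; simp [hEdef]
    rw [this]
    exact MeasurableSet.iUnion fun n => (hX n).meas t ht.le {ξ | m + 1 ≤ ξ 0}
  have hanti : Antitone E := by
    intro a b hab ω hω
    obtain ⟨n, hn⟩ := hω
    exact ⟨n, by omega⟩
  have hset : {ω | ⨆ n, ((X n t ω 0 : ℕ) : ℕ∞) = ⊤} = ⋂ m, E m := by
    ext ω
    simp only [Set.mem_ofPred_eq, mem_iInter, hEdef]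
    rw [ENat.iSup_natCast_eq_top, not_bddAbove_iff]
    constructor
    · intro h m
      obtain ⟨_, ⟨n, rfl⟩, hn⟩ := h m
      exact ⟨n, hn⟩
    · intro h m
      obtain ⟨n, hn⟩ := h m
      exact ⟨_, ⟨n, rfl⟩, hn⟩
  rw [hset]
  have hlim := tendsto_measure_iInter_atTop (μ := P) (fun m => (hEm m).nullMeasurableSet) hanti
    ⟨0, measure_ne_top _ _⟩
  exact ge_of_tendsto' hlim fun m => hE (m + 1) (Nat.succ_pos m)

end Pool.Agent.Results.MP_773c46_pr.PilesExplode
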